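import Mathlib
import Pool.Agent.H.MP_eff4ce_al.C

namespace Pool.Agent.Results.MP_eff4ce_al.Yes

open Filter

/-- The commuting graph of a semigroup: vertices are the non-central elements, two distinct
vertices are adjacent when they commute. -/
def commGraph (S : Type) [Semigroup S] : SimpleGraph {x : S // ¬ ∀ y, x * y = y * x} where
  Adj x y := x ≠ y ∧ x.1 * y.1 = y.1 * x.1
  symm := ⟨fun _ _ h => ⟨h.1.symm, h.2.symm⟩⟩
  loopless := ⟨fun _ h => h.1 rfl⟩

/-- No vertex is adjacent to every other vertex. -/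
def StarFree {V : Type} (G : SimpleGraph V) : Prop := ¬ ∃ v, ∀ u, u ≠ v → G.Adj v u

/-- The least number of generators of a semigroup whose commuting graph is isomorphic to `G`
(infinite if there is no finitely generated such semigroup). -/
noncomputable def rank {V : Type} (G : SimpleGraph V) : ℕ∞ :=
  ⨅ (S : Type) (_ : Semigroup S) (T : Finset S) (_ : Subsemigroup.closure (T : Set S) = ⊤)
    (_ : Nonempty (commGraph S ≃g G)), (T.card : ℕ∞)

theorem result : ∃ (C : ℕ) (V : ℕ → Type) (G : ∀ k, SimpleGraph (V k)),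
    (∀ k, Finite (V k) ∧ StarFree (G k) ∧ ¬ (G k).IsAcyclic ∧ rank (G k) ≤ C) ∧
      Tendsto (fun k => (G k).girth) atTop atTop := by
  refine ⟨15, _, fun k => commGraph (Pool.Agent.H.MP_eff4ce_al.S (k + 2) k), fun k =>
    ⟨inferInstance, ?_, Pool.Agent.H.MP_eff4ce_al.not_acyclic, ?_⟩,
    tendsto_atTop_mono (fun k => Pool.Agent.H.MP_eff4ce_al.girth_ge) tendsto_id⟩
  · rintro ⟨v, hv⟩
    apply v.2
    intro y
    by_cases hy : ∀ x, y * x = x * y
    · exact (hy _).symm
    · by_cases e : (⟨y, hy⟩ : {x // ¬ ∀ y, x * y = y * x}) = v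
      · rw [← e]
      · exact (hv _ e).2
  · refine iInf_le_of_le _ (iInf_le_of_le _ (iInf_le_of_le (Pool.Agent.H.MP_eff4ce_al.gens _ _)
      (iInf_le_of_le Pool.Agent.H.MP_eff4ce_al.gens_closure
        (iInf_le_of_le ⟨SimpleGraph.Iso.refl⟩ ?_))))
    exact_mod_cast Pool.Agent.H.MP_eff4ce_al.gens_card

end Pool.Agent.Results.MP_eff4ce_al.Yes
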